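import Pool.Agent.Helper58.Qip.Stmts

set_option autoImplicit false

/-!
The Palm measure: the packets D1, D2 and D3.
-/

open MeasureTheory ProbabilityTheory Filter Topology
open scoped ENNReal NNReal

namespace Pool.Agent.Helper84.Qip

open Pool.Agent.Helper58.Qip

variable {d : ℕ} {Q : Measure (Conf d)}

/-! ### Stationarity -/

/-- The shift as a measurable equivalence. -/
def shiftEquiv (x : Site d) : Conf d ≃ᵐ Conf d where
  toFun := shift x
  invFun := shift (-x)
  left_inv ω := by rw [shift_shift]; simp
  right_inv ω := by rw [shift_shift]; simp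
  measurable_toFun := measurable_shift x
  measurable_invFun := measurable_shift (-x)

lemma mp_shift (h : Env d Q) (x : Site d) : MeasurePreserving (shift x) Q Q := by
  let H : AddSubgroup (Site d) :=
    { carrier := {x | MeasurePreserving (shift x) Q Q}
      zero_mem' := by
        have : shift (0 : Site d) = (id : Conf d → Conf d) := by
          funext ω; simp
        change MeasurePreserving (shift (0 : Site d)) Q Q
        rw [this]
        exact MeasurePreserving.id Q
      add_mem' := by
        intro a b ha hb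
        change MeasurePreserving (shift (a + b)) Q Q
        have hc : shift (a + b) = (shift b : Conf d → Conf d) ∘ shift a := by
          funext ω; simp [shift_shift]
        rw [hc]
        exact MeasurePreserving.comp hb ha
      neg_mem' := by
        intro a ha
        change MeasurePreserving (shift (-a)) Q Q
        have ha' : MeasurePreserving (shiftEquiv a) Q Q := ha
        exact ha'.symm }
  have hx : x = ∑ i, x i • (Pi.single i (1 : ℤ) : Site d) := by
    funext j
    simp [Finset.sum_apply, Pi.single_apply]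
  have : x ∈ H := by
    rw [hx]
    refine AddSubgroup.sum_mem _ fun i _ => AddSubgroup.zsmul_mem _ ?_ _
    exact (h.erg i).toMeasurePreserving
  exact this

lemma measurableSet_coord (x : Site d) (b : Bool) : MeasurableSet {ω : Conf d | ω x = b} := by
  have h : Measurable fun ω : Conf d => ω x := measurable_pi_apply x
  exact h (measurableSet_singleton b)

lemma measurableSet_occ (x : Site d) : MeasurableSet {ω : Conf d | ω x = true} :=
  measurableSet_coord x true

lemma occ_pos (h : Env d Q) : Q {ω | ω 0 = true} ≠ 0 := by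
  intro h0
  have := h.prob
  have h1 : ∀ x : Site d, Q {ω | ω x = true} = 0 := by
    intro x
    have := (mp_shift h x).measure_preimage (measurableSet_occ (0 : Site d)).nullMeasurableSet
    rw [h0] at this
    rw [← this]
    congr 1
    ext ω
    simp
  have h2 : Q (⋃ x : Site d, {ω | ω x = true}) = 0 := measure_iUnion_null h1
  have h3 : (⋃ x : Site d, {ω : Conf d | ω x = true})ᶜ = {ω | ∀ x, ω x = false} := by
    ext ω
    simp
  have h4 : Q {ω | ∀ x, ω x = false} = 1 := by
    rw [← h3, prob_compl_eq_one_iff₀]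
    · exact h2
    · exact (MeasurableSet.iUnion fun x => measurableSet_occ x).nullMeasurableSet
  exact absurd h.nonempty (by rw [h4]; exact lt_irrefl _)

lemma palm_prob (h : Env d Q) : IsProbabilityMeasure (palm Q) := by
  have := h.prob
  exact ProbabilityTheory.cond_isProbabilityMeasure (occ_pos h)

lemma ae_palm_iff (h : Env d Q) {p : Conf d → Prop} :
    (∀ᵐ ω ∂palm Q, p ω) ↔ ∀ᵐ ω ∂Q, ω 0 = true → p ω := by
  have := h.prob
  rw [palm, ProbabilityTheory.cond]
  rw [Measure.ae_ennreal_smul_measure_iff]
  · rw [ae_restrict_iff' (measurableSet_occ 0)]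
    rfl
  · simp

/-! ### Recurrence -/

lemma iterate_shift (x : Site d) (n : ℕ) (ω : Conf d) : (shift x)^[n] ω = shift ((n : ℤ) • x) ω := by
  induction n with
  | zero => simp
  | succ n ih =>
    rw [Function.iterate_succ_apply', ih, shift_shift]
    congr 1
    push_cast
    rw [add_smul, one_smul]

lemma recur (h : Env d Q) (e : Dir d) :
    ∀ᵐ ω ∂Q, ω 0 = true → ∃ k : ℕ, 0 < k ∧ ω ((k : ℤ) • unit e) = true := by
  have := h.prob
  have hc := (mp_shift h (unit e)).conservative
  have h1 := hc.ae_mem_imp_frequently_image_mem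
    (measurableSet_occ (0 : Site d)).nullMeasurableSet
  filter_upwards [h1] with ω hω h0
  have h2 := hω h0
  rw [frequently_atTop] at h2
  obtain ⟨n, hn, hn'⟩ := h2 1
  refine ⟨n, hn, ?_⟩
  have h3 : (shift (unit e))^[n] ω 0 = true := hn'
  rw [iterate_shift] at h3
  simpa using h3

lemma ae_good (h : Env d Q) : ∀ᵐ ω ∂Q, Good ω := by
  have h1 : ∀ᵐ ω ∂Q, ∀ v : Site d, ∀ e : Dir d,
      ω v = true → ∃ k : ℕ, 0 < k ∧ ω (v + (k : ℤ) • unit e) = true := by
    rw [ae_all_iff]
    intro v
    rw [ae_all_iff]
    intro e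
    have h2 := (mp_shift h v).quasiMeasurePreserving.ae (recur h e)
    filter_upwards [h2] with ω hω h0
    have h3 := hω (by simpa using h0)
    simpa using h3
  filter_upwards [h1] with ω hω
  intro v hv e
  exact hω v e hv

/-! ### Measurability of the hop length -/

lemma hop_eq_iff {e : Dir d} {ω : Conf d} {k : ℕ} (hk : 0 < k) :
    hop e ω = k ↔ ω ((k : ℤ) • unit e) = true ∧
      ∀ j : ℕ, 0 < j → j < k → ω ((j : ℤ) • unit e) = false := by
  constructor
  · intro h
    have hne : {k : ℕ | 0 < k ∧ ω ((k : ℤ) • unit e) = true}.Nonempty := by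
      by_contra hc
      rw [Set.not_nonempty_iff_eq_empty] at hc
      rw [hop, hc, Nat.sInf_empty] at h
      omega
    have h1 := Nat.sInf_mem hne
    have h2 : sInf {k : ℕ | 0 < k ∧ ω ((k : ℤ) • unit e) = true} = k := h
    rw [h2] at h1
    refine ⟨h1.2, fun j hj hjk => ?_⟩
    by_contra hc
    have : sInf {k : ℕ | 0 < k ∧ ω ((k : ℤ) • unit e) = true} ≤ j :=
      Nat.sInf_le ⟨hj, by simpa using hc⟩
    omega
  · rintro ⟨h1, h2⟩
    have h3 := hop_eq (ω := ω) (v := 0) e hk (by simpa using h1) (by simpa using h2)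
    simpa using h3

lemma hop_eq_zero_iff {e : Dir d} {ω : Conf d} :
    hop e ω = 0 ↔ ∀ j : ℕ, 0 < j → ω ((j : ℤ) • unit e) = false := by
  constructor
  · intro h j hj
    by_contra hc
    have hne : {k : ℕ | 0 < k ∧ ω ((k : ℤ) • unit e) = true}.Nonempty :=
      ⟨j, hj, by simpa using hc⟩
    have h1 := Nat.sInf_mem hne
    have h2 : sInf {k : ℕ | 0 < k ∧ ω ((k : ℤ) • unit e) = true} = 0 := h
    rw [h2] at h1
    exact absurd h1.1 (lt_irrefl _)
  · intro h
    have : {k : ℕ | 0 < k ∧ ω ((k : ℤ) • unit e) = true} = ∅ := by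
      ext k
      simp only [Set.mem_ofPred_eq, Set.mem_empty_iff_false, iff_false, not_and]
      intro hk
      rw [h k hk]
      simp
    rw [hop, this, Nat.sInf_empty]

lemma measurableSet_hop (e : Dir d) (k : ℕ) : MeasurableSet {ω : Conf d | hop e ω = k} := by
  have hf : ∀ x : Site d, MeasurableSet {ω : Conf d | ω x = false} := fun x =>
    measurableSet_coord x false
  rcases Nat.eq_zero_or_pos k with hk | hk
  · subst hk
    simp only [hop_eq_zero_iff]
    have : {ω : Conf d | ∀ j : ℕ, 0 < j → ω ((j : ℤ) • unit e) = false} =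
        ⋂ (j : ℕ) (_ : 0 < j), {ω : Conf d | ω ((j : ℤ) • unit e) = false} := by
      ext ω; simp
    rw [this]
    exact MeasurableSet.iInter fun j => MeasurableSet.iInter fun _ => hf _
  · simp only [hop_eq_iff hk]
    have : {ω : Conf d | ω ((k : ℤ) • unit e) = true ∧
        ∀ j : ℕ, 0 < j → j < k → ω ((j : ℤ) • unit e) = false} =
        {ω : Conf d | ω ((k : ℤ) • unit e) = true} ∩
        ⋂ (j : ℕ) (_ : 0 < j) (_ : j < k), {ω : Conf d | ω ((j : ℤ) • unit e) = false} := by
      ext ω; simp
    rw [this]
    exact (measurableSet_occ _).inter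
      (MeasurableSet.iInter fun j => MeasurableSet.iInter fun _ => MeasurableSet.iInter fun _ => hf _)

lemma measurable_hop (e : Dir d) : Measurable (hop (d := d) e) :=
  measurable_to_countable' fun k => measurableSet_hop e k

lemma measurable_sig (e : Dir d) : Measurable (sig (d := d) e) := by
  have h1 : Measurable fun p : Conf d × ℕ => shift ((p.2 : ℤ) • unit e) p.1 :=
    measurable_from_prod_countable_left fun n => measurable_shift ((n : ℤ) • unit e)
  exact h1.comp (measurable_id.prodMk (measurable_hop e))

/-! ### The environment seen from the next point -/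

lemma measure_slice (h : Env d Q) (e : Dir d) {k : ℕ} (hk : 0 < k) {A : Set (Conf d)}
    (hA : MeasurableSet A) :
    Q ({ω | ω 0 = true} ∩ {ω | hop e ω = k} ∩ sig e ⁻¹' A) =
      Q ({ω | ω 0 = true} ∩ {ω | hop (flip e) ω = k} ∩ A) := by
  have hm : MeasurableSet ({ω : Conf d | ω 0 = true} ∩ {ω | hop (flip e) ω = k} ∩ A) :=
    ((measurableSet_occ 0).inter (measurableSet_hop _ _)).inter hA
  rw [← (mp_shift h ((k : ℤ) • unit e)).measure_preimage hm.nullMeasurableSet]
  congr 1
  ext ω
  simp only [Set.mem_inter_iff, Set.mem_ofPred_eq, Set.mem_preimage]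
  constructor
  · rintro ⟨⟨h0, h1⟩, h2⟩
    rw [sig, h1] at h2
    rw [hop_eq_iff hk] at h1
    refine ⟨⟨by simpa using h1.1, ?_⟩, h2⟩
    rw [hop_eq_iff hk]
    refine ⟨by simpa [unit_flip] using h0, fun j hj hjk => ?_⟩
    have h3 := h1.2 (k - j) (by omega) (by omega)
    rw [Nat.cast_sub hjk.le, sub_smul] at h3
    simpa [unit_flip, sub_eq_add_neg] using h3
  · rintro ⟨⟨h0, h1⟩, h2⟩
    rw [hop_eq_iff hk] at h1
    have h4 : hop e ω = k := by
      rw [hop_eq_iff hk]
      refine ⟨by simpa using h0, fun j hj hjk => ?_⟩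
      have h3 := h1.2 (k - j) (by omega) (by omega)
      rw [Nat.cast_sub hjk.le, sub_smul] at h3
      simpa [unit_flip, sub_eq_add_neg] using h3
    refine ⟨⟨by simpa [unit_flip] using h1.1, h4⟩, ?_⟩
    rw [sig, h4]
    exact h2

lemma measure_split (e : Dir d) {B : Set (Conf d)} (hB : MeasurableSet B) :
    Q ({ω | ω 0 = true} ∩ B) = ∑' k : ℕ, Q ({ω | ω 0 = true} ∩ {ω | hop e ω = k} ∩ B) := by
  rw [← measure_iUnion]
  · congr 1
    ext ω
    simp
  · intro i j hij
    rw [Function.onFun, Set.disjoint_left]
    rintro ω ⟨⟨_, h1⟩, _⟩ ⟨⟨_, h2⟩, _⟩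
    exact hij (h1.symm.trans h2)
  · intro k
    exact ((measurableSet_occ 0).inter (measurableSet_hop _ _)).inter hB

lemma measure_slice_zero (h : Env d Q) (e : Dir d) (B : Set (Conf d)) :
    Q ({ω | ω 0 = true} ∩ {ω | hop e ω = 0} ∩ B) = 0 := by
  have h1 := recur h e
  rw [ae_iff] at h1
  refine measure_mono_null ?_ h1
  rintro ω ⟨⟨h0, h2⟩, _⟩
  simp only [Set.mem_ofPred_eq, Classical.not_imp, not_exists, not_and]
  refine ⟨h0, fun k hk => ?_⟩
  rw [hop_eq_zero_iff.1 h2 k hk]
  simp

lemma mp_sig (h : Env d Q) (e : Dir d) : MeasurePreserving (sig e) (palm Q) (palm Q) := by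
  have := h.prob
  refine ⟨measurable_sig e, ?_⟩
  ext A hA
  rw [Measure.map_apply (measurable_sig e) hA, palm,
    ProbabilityTheory.cond_apply (measurableSet_occ 0),
    ProbabilityTheory.cond_apply (measurableSet_occ 0)]
  congr 1
  rw [measure_split e (measurable_sig e hA), measure_split (flip e) hA]
  refine tsum_congr fun k => ?_
  rcases Nat.eq_zero_or_pos k with hk | hk
  · subst hk
    rw [measure_slice_zero h, measure_slice_zero h]
  · exact measure_slice h e hk hA

theorem stmtD1 : StmtD1 := by
  intro d Q _ h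
  refine ⟨palm_prob h, ?_, mp_sig h⟩
  rw [ae_palm_iff h]
  filter_upwards [ae_good h] with ω hω h0
  exact ⟨h0, hω⟩

theorem stmtD2 : StmtD2 := by
  intro d Q _ h p hp
  rw [ae_palm_iff h] at hp ⊢
  have h1 : ∀ᵐ ω ∂Q, ∀ v : Site d, ω v = true → p (shift v ω) := by
    rw [ae_all_iff]
    intro v
    have h2 := (mp_shift h v).quasiMeasurePreserving.ae hp
    filter_upwards [h2] with ω hω h0
    exact hω (by simpa using h0)
  filter_upwards [h1] with ω hω _
  exact hω

/-! ### Ergodicity -/

/-- Almost surely there are occupied sites on each half line. -/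
lemma ae_exists (h : Env d Q) (i : Fin d) :
    ∀ᵐ ω ∂Q, ∃ k : ℕ, 0 < k ∧ ω ((k : ℤ) • unit (i, true)) = true := by
  have := h.prob
  have hu : unit (i, true) = (Pi.single i 1 : Site d) := by simp [unit]
  set N : Set (Conf d) := {ω | ∀ k : ℕ, ω ((k : ℤ) • unit (i, true)) = false} with hN
  have hNm : MeasurableSet N := by
    have : N = ⋂ k : ℕ, {ω : Conf d | ω ((k : ℤ) • unit (i, true)) = false} := by
      ext ω; simp [hN]
    rw [this]
    exact MeasurableSet.iInter fun k => measurableSet_coord _ false
  have hsub : N ⊆ shift (Pi.single i 1) ⁻¹' N := by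
    intro ω hω k
    have h1 := hω (k + 1)
    rw [← hu]
    push_cast at h1
    rw [add_smul, one_smul, add_comm] at h1
    exact h1
  have h2 : Q N = 0 := by
    rcases (h.erg i).ae_empty_or_univ_of_ae_le_preimage hNm.nullMeasurableSet
      (LE.le.eventuallyLE hsub) with h3 | h3
    · rw [measure_congr h3, measure_empty]
    · exfalso
      apply occ_pos h
      have h4 : ∀ᵐ ω ∂Q, ω ∈ N := by
        filter_upwards [h3] with ω hω
        have : N ω = Set.univ ω := hω
        exact this.mpr trivial
      rw [ae_iff] at h4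
      refine measure_mono_null ?_ h4
      intro ω h0 hc
      have h5 := hc 0
      simp only [Nat.cast_zero, zero_smul] at h5
      have h6 : ω 0 = true := h0
      rw [h5] at h6
      exact absurd h6 (by simp)
  have h3 : ∀ᵐ ω ∂Q, ω ∉ N := measure_eq_zero_iff_ae_notMem.1 h2
  have h4 := (mp_shift h (unit (i, true))).quasiMeasurePreserving.ae h3
  filter_upwards [h4] with ω hω
  simp only [hN, Set.mem_ofPred_eq, not_forall] at hω
  obtain ⟨k, hk⟩ := hω
  refine ⟨k + 1, by omega, ?_⟩
  push_cast
  rw [add_smul, one_smul, add_comm]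
  simpa using hk

theorem stmtD3 : StmtD3 := by
  classical
  intro d Q hd h f hf hinv
  have := h.prob
  let i : Fin d := ⟨0, hd⟩
  let e : Dir d := (i, true)
  have hu : unit e = (Pi.single i 1 : Site d) := by simp [unit, e]
  have hi : ∀ᵐ ω ∂palm Q, f (sig e ω) = f ω := hinv e
  rw [ae_palm_iff h] at hi
  let g : Conf d → ℝ := fun ω => if ω 0 = true then f ω else f (sig e ω)
  have hg : Measurable g := Measurable.ite (measurableSet_occ 0) hf (hf.comp (measurable_sig e))
  have hgT : g ∘ shift (Pi.single i 1) =ᵐ[Q] g := by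
    filter_upwards [hi, ae_exists h i] with ω h1 h2
    have h3 : g (shift (Pi.single i 1) ω) = f (sig e ω) := by
      have hpos : 0 < hop e ω := by
        rw [Nat.pos_iff_ne_zero]
        intro hc
        obtain ⟨k, hk, hk'⟩ := h2
        rw [hop_eq_zero_iff.1 hc k hk] at hk'
        exact absurd hk' (by simp)
      have hs := (hop_eq_iff (e := e) (ω := ω) hpos).1 rfl
      rw [← hu]
      by_cases h4 : ω (unit e) = true
      · have h5 : hop e ω = 1 := by
          rw [hop_eq_iff one_pos]
          refine ⟨by simpa using h4, fun j hj hj' => by omega⟩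
        have h6 : g (shift (unit e) ω) = f (shift (unit e) ω) := by
          apply if_pos
          simpa using h4
        rw [h6, sig, h5]
        simp
      · have h5 : 1 < hop e ω := by
          rcases Nat.lt_or_ge 1 (hop e ω) with h6 | h6
          · exact h6
          · exfalso
            have h7 : hop e ω = 1 := by omega
            rw [h7] at hs
            exact h4 (by simpa using hs.1)
        have h6 : g (shift (unit e) ω) = f (sig e (shift (unit e) ω)) := by
          apply if_neg
          simpa using h4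
        rw [h6]
        have h7 : hop e (shift (unit e) ω) = hop e ω - 1 := by
          rw [hop_eq_iff (by omega)]
          refine ⟨?_, fun j hj hj' => ?_⟩
          · have h8 := hs.1
            rw [shift_apply]
            rw [Nat.cast_sub h5.le, sub_smul]
            simpa using h8
          · have h8 := hs.2 (j + 1) (by omega) (by omega)
            push_cast at h8
            rw [add_smul, one_smul, add_comm] at h8
            exact h8
        rw [sig, h7, shift_shift, sig]
        congr 2
        rw [Nat.cast_sub h5.le, sub_smul]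
        simp
    change g (shift (Pi.single i 1) ω) = g ω
    rw [h3]
    by_cases h4 : ω 0 = true
    · have h5 : g ω = f ω := if_pos h4
      rw [h5]
      exact h1 h4
    · have h5 : g ω = f (sig e ω) := if_neg h4
      rw [h5]
  obtain ⟨c, hc⟩ := (h.erg i).ae_eq_const_of_ae_eq_comp₀ hg.nullMeasurable hgT
  refine ⟨c, ?_⟩
  change ∀ᵐ ω ∂palm Q, f ω = c
  rw [ae_palm_iff h]
  filter_upwards [hc] with ω hω h0
  have h5 : g ω = f ω := if_pos h0
  rw [← h5]
  exact hω

end Pool.Agent.Helper84.Qip
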